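import Pool.Agent.H85.NF.Q

/-!
# NF: the product formula for the form `⟨a_i, -b_i⟩` (row PRL of H85/NF/Q)
-/

set_option autoImplicit false

namespace Pool.NF

open Matrix Pool.T1 Pool.AVS

/-- The product of the symbols of `x` and `y` at the primes of `S`. -/
private noncomputable def pF (S : Finset ℕ) (x y : ℚ) : ℤ := ∏ p ∈ S, tm p x y

section F

variable (ht : TMMStmt) (S : Finset ℕ) (hS : ∀ p ∈ S, OPr p)

include ht hS

private theorem pF_symm (x y : ℚ) (hx : x ≠ 0) (hy : y ≠ 0) : pF S x y = pF S y x :=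
  Finset.prod_congr rfl fun p hp => (ht p (hS p hp) x y 1 hx hy one_ne_zero).2.1

private theorem pF_mul (x y z : ℚ) (hx : x ≠ 0) (hy : y ≠ 0) (hz : z ≠ 0) :
    pF S x (y * z) = pF S x y * pF S x z := by
  rw [pF, pF, pF, ← Finset.prod_mul_distrib]
  exact Finset.prod_congr rfl fun p hp => (ht p (hS p hp) x y z hx hy hz).2.2.1

private theorem pF_mul' (x y z : ℚ) (hx : x ≠ 0) (hy : y ≠ 0) (hz : z ≠ 0) :
    pF S (x * y) z = pF S x z * pF S y z := by
  rw [pF_symm ht S hS _ _ (mul_ne_zero hx hy) hz, pF_mul ht S hS _ _ _ hz hx hy,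
    pF_symm ht S hS _ _ hz hx, pF_symm ht S hS _ _ hz hy]

private theorem pF_neg (x : ℚ) (hx : x ≠ 0) : pF S x (-x) = 1 :=
  Finset.prod_eq_one fun p hp => (ht p (hS p hp) x x 1 hx hx one_ne_zero).2.2.2.1

private theorem pF_pm (x y : ℚ) (hx : x ≠ 0) (hy : y ≠ 0) : pF S x y = 1 ∨ pF S x y = -1 := by
  classical
  refine Finset.prod_induction (fun p => tm p x y) (fun a : ℤ => a = 1 ∨ a = -1) ?_ (Or.inl rfl) ?_
  · rintro a b (rfl | rfl) (rfl | rfl) <;> simp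
  · intro p hp
    exact (ht p (hS p hp) x y 1 hx hy one_ne_zero).1

private theorem pF_sq (x y : ℚ) (hx : x ≠ 0) (hy : y ≠ 0) : pF S x (y * y) = 1 := by
  rw [pF_mul ht S hS _ _ _ hx hy hy]
  rcases pF_pm ht S hS x y hx hy with h | h <;> rw [h] <;> norm_num

private theorem pF_one (x : ℚ) (hx : x ≠ 0) : pF S x 1 = 1 := by
  simpa using pF_sq ht S hS x 1 hx one_ne_zero

private theorem pF_inv (x y : ℚ) (hx : x ≠ 0) (hy : y ≠ 0) : pF S x y⁻¹ = pF S x y := by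
  have h : y⁻¹ = y * (y⁻¹ * y⁻¹) := by field_simp
  rw [h, pF_mul ht S hS _ _ _ hx hy (mul_ne_zero (inv_ne_zero hy) (inv_ne_zero hy)),
    pF_sq ht S hS _ _ hx (inv_ne_zero hy), mul_one]

private theorem pF_unit (x y : ℚ) (hx : x ≠ 0) (hy : y ≠ 0)
    (h : ∀ p ∈ S, padicValRat p x = 0 ∧ padicValRat p y = 0) : pF S x y = 1 :=
  Finset.prod_eq_one fun p hp => (ht p (hS p hp) x y 1 hx hy one_ne_zero).2.2.2.2 (h p hp).1
    (h p hp).2

end F

private theorem zp_one : (1 : ℚ) ∈ Zp 2 := by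
  show ¬ 2 ∣ (1 : ℚ).den
  simp

/-- The primes outside `S` do not divide `x`. -/
private def Un (S : Finset ℕ) (x : ℚ) : Prop := ∀ p, OPr p → p ∉ S → padicValRat p x = 0

private theorem un_mul {S : Finset ℕ} {x y : ℚ} (hx : x ≠ 0) (hy : y ≠ 0) (h1 : Un S x)
    (h2 : Un S y) : Un S (x * y) := by
  intro p hp hpS
  have := Fact.mk hp.1
  rw [padicValRat.mul hx hy, h1 p hp hpS, h2 p hp hpS, add_zero]

private theorem un_inv {S : Finset ℕ} {x : ℚ} (h1 : Un S x) : Un S x⁻¹ := by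
  intro p hp hpS
  have := Fact.mk hp.1
  rw [padicValRat.inv, h1 p hp hpS, neg_zero]

private theorem un_neg {S : Finset ℕ} {x : ℚ} (h1 : Un S x) : Un S (-x) := by
  intro p hp hpS
  rw [padicValRat.neg, h1 p hp hpS]

private theorem un_one {S : Finset ℕ} : Un S 1 := by
  intro p hp hpS
  simp

section P

variable (ht : TMMStmt) (hq : QRCStmt) (S : Finset ℕ) (hS : ∀ p ∈ S, OPr p)

include ht hq hS

/-- QRC for a quotient. -/
private theorem pF_q (x : ℚ) (q : ℚ × ℚ) (hx : x ≠ 0) (hx' : Un S x) (h : Nr8 q.1 q.2)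
    (h1 : Un S q.1) (h2 : Un S q.2) : pF S x (q.1 / q.2) = 1 := by
  refine hq x (q.1 / q.2) S hx h.2.2.1 h.2.2.2 hS fun p hp hpS => ⟨hx' p hp hpS, ?_⟩
  rw [div_eq_mul_inv]
  exact un_mul h.1 (inv_ne_zero h.2.1) h1 (un_inv h2) p hp hpS

/-- The symbol of `a` and `-b`. -/
private theorem pF_ab (q : ℚ × ℚ) (h : Nr8 q.1 q.2) (h1 : Un S q.1) (h2 : Un S q.2) :
    pF S q.1 (-q.2) = 1 := by
  have hc : q.1 / q.2 ≠ 0 := div_ne_zero h.1 h.2.1
  have hb : -q.2 ≠ 0 := neg_ne_zero.2 h.2.1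
  have e : q.1 = (q.1 / q.2) * q.2 := by
    rw [div_mul_cancel₀ _ h.2.1]
  conv_lhs => rw [e]
  rw [pF_mul' ht S hS _ _ _ hc h.2.1 hb, pF_neg ht S hS _ h.2.1, mul_one,
    pF_symm ht S hS _ _ hc hb]
  exact pF_q ht hq S hS _ q hb (un_neg h2) h h1 h2

/-- The symbol of `x` and `- a b`, for `x` and the pair of `-1`. -/
private theorem pF_mab (x : ℚ) (q : ℚ × ℚ) (hx : x ≠ 0) (hx' : Un S x) (h : Nr8 q.1 q.2)
    (h1 : Un S q.1) (h2 : Un S q.2) : pF S x (q.1 * -q.2) = pF S x (-1) := by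
  have hc : q.1 / q.2 ≠ 0 := div_ne_zero h.1 h.2.1
  have e : q.1 * -q.2 = (-1) * ((q.1 / q.2) * (q.2 * q.2)) := by
    have := h.2.1
    field_simp
  rw [e, pF_mul ht S hS _ _ _ hx (by norm_num) (mul_ne_zero hc (mul_ne_zero h.2.1 h.2.1)),
    pF_mul ht S hS _ _ _ hx hc (mul_ne_zero h.2.1 h.2.1), pF_sq ht S hS _ _ hx h.2.1,
    pF_q ht hq S hS _ q hx hx' h h1 h2, mul_one, mul_one]

private theorem pF_m1m1 : pF S (-1) (-1) = 1 := by
  refine pF_unit ht S hS _ _ (by norm_num) (by norm_num) fun p _ => ?_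
  simp

/-- The symbol of `- a b` and the product. -/
private theorem pF_prod (q : ℚ × ℚ) (h : Nr8 q.1 q.2) (h1 : Un S q.1) (h2 : Un S q.2)
    (l : List (ℚ × ℚ)) (hl : ∀ r ∈ l, Nr8 r.1 r.2) (hl1 : ∀ r ∈ l, Un S r.1 ∧ Un S r.2) :
    (l.flatMap fun q => [q.1, -q.2]).prod ≠ 0 ∧
      pF S (q.1 * -q.2) (l.flatMap fun q => [q.1, -q.2]).prod = 1 := by
  have hq0 : q.1 * -q.2 ≠ 0 := mul_ne_zero h.1 (neg_ne_zero.2 h.2.1)
  have hqu : Un S (q.1 * -q.2) := un_mul h.1 (neg_ne_zero.2 h.2.1) h1 (un_neg h2)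
  induction l with
  | nil =>
    refine ⟨by simp, ?_⟩
    rw [List.flatMap_nil, List.prod_nil]
    exact pF_one ht S hS _ hq0
  | cons r l ih =>
    obtain ⟨ih0, ih1⟩ := ih (fun s hs => hl s (List.mem_cons_of_mem _ hs))
      (fun s hs => hl1 s (List.mem_cons_of_mem _ hs))
    have hr := hl r List.mem_cons_self
    have hr1 := hl1 r List.mem_cons_self
    have e : ((r :: l).flatMap fun q => [q.1, -q.2]).prod =
        (r.1 * -r.2) * (l.flatMap fun q => [q.1, -q.2]).prod := by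
      rw [List.flatMap_cons, List.prod_append]
      simp
    have hr0 : r.1 * -r.2 ≠ 0 := mul_ne_zero hr.1 (neg_ne_zero.2 hr.2.1)
    rw [e]
    refine ⟨mul_ne_zero hr0 ih0, ?_⟩
    rw [pF_mul ht S hS _ _ _ hq0 hr0 ih0, ih1, mul_one,
      pF_mab ht hq S hS _ r hq0 hqu hr hr1.1 hr1.2, pF_symm ht S hS _ _ hq0 (by norm_num),
      pF_mab ht hq S hS _ q (by norm_num) (un_neg un_one) h h1 h2, pF_m1m1 ht hq S hS]

end P

/-- PRL: the product formula for the form `⟨a_i, -b_i⟩`. -/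
theorem prl (ht : TMMStmt) (hq : QRCStmt) : PRLStmt := by
  intro l S hl hS hval
  induction l with
  | nil => exact Finset.prod_eq_one fun p _ => rfl
  | cons q l ih =>
    have hl' : ∀ r ∈ l, Nr8 r.1 r.2 := fun s hs => hl s (List.mem_cons_of_mem _ hs)
    have ih' := ih hl' (fun p hp hpS r hr => hval p hp hpS r (List.mem_cons_of_mem _ hr))
    have hun : ∀ r ∈ q :: l, Un S r.1 ∧ Un S r.2 := fun r hr =>
      ⟨fun p hp hpS => (hval p hp hpS r hr).1, fun p hp hpS => (hval p hp hpS r hr).2⟩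
    have h := hl q List.mem_cons_self
    have h1 := hun q List.mem_cons_self
    obtain ⟨hP0, hP⟩ := pF_prod ht hq S hS q h h1.1 h1.2 l hl'
      (fun r hr => hun r (List.mem_cons_of_mem _ hr))
    have hb : -q.2 ≠ 0 := neg_ne_zero.2 h.2.1
    set P := (l.flatMap fun q => [q.1, -q.2]).prod with hPdef
    have e : ∀ p, hsl p ((q :: l).flatMap fun q => [q.1, -q.2]) =
        tm p q.1 (-q.2 * P) * (tm p (-q.2) P * hsl p (l.flatMap fun q => [q.1, -q.2])) := by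
      intro p
      rw [List.flatMap_cons]
      show tm p q.1 _ * (tm p (-q.2) _ * hsl p _) = _
      simp only [List.nil_append, List.prod_cons, hPdef]
      rfl
    simp only [e]
    rw [Finset.prod_mul_distrib, Finset.prod_mul_distrib, ih', mul_one]
    show pF S q.1 (-q.2 * P) * pF S (-q.2) P = 1
    rw [pF_mul ht S hS _ _ _ h.1 hb hP0, pF_ab ht hq S hS q h h1.1 h1.2, one_mul,
      ← pF_mul' ht S hS _ _ _ h.1 hb hP0]
    exact hP

end Pool.NF
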