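import Pool.Agent.H85.NF.Q

/-!
# NF: quadratic reciprocity and the product formula (rows QRC and PRL of H85/NF/Q)
-/

set_option autoImplicit false

namespace Pool.NF

open Matrix Pool.T1 Pool.AVS

/-- The product of the symbols of `x` and `y` at the primes of `S`. -/
private noncomputable def qF (S : Finset ℕ) (x y : ℚ) : ℤ := ∏ p ∈ S, tm p x y

section F

variable (ht : TMMStmt) (S : Finset ℕ) (hS : ∀ p ∈ S, OPr p)

include ht hS

private theorem qF_symm (x y : ℚ) (hx : x ≠ 0) (hy : y ≠ 0) : qF S x y = qF S y x :=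
  Finset.prod_congr rfl fun p hp => (ht p (hS p hp) x y 1 hx hy one_ne_zero).2.1

private theorem qF_mul (x y z : ℚ) (hx : x ≠ 0) (hy : y ≠ 0) (hz : z ≠ 0) :
    qF S x (y * z) = qF S x y * qF S x z := by
  rw [qF, qF, qF, ← Finset.prod_mul_distrib]
  exact Finset.prod_congr rfl fun p hp => (ht p (hS p hp) x y z hx hy hz).2.2.1

private theorem qF_mul' (x y z : ℚ) (hx : x ≠ 0) (hy : y ≠ 0) (hz : z ≠ 0) :
    qF S (x * y) z = qF S x z * qF S y z := by
  rw [qF_symm ht S hS _ _ (mul_ne_zero hx hy) hz, qF_mul ht S hS _ _ _ hz hx hy,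
    qF_symm ht S hS _ _ hz hx, qF_symm ht S hS _ _ hz hy]

private theorem qF_neg (x : ℚ) (hx : x ≠ 0) : qF S x (-x) = 1 :=
  Finset.prod_eq_one fun p hp => (ht p (hS p hp) x x 1 hx hx one_ne_zero).2.2.2.1

private theorem qF_pm (x y : ℚ) (hx : x ≠ 0) (hy : y ≠ 0) : qF S x y = 1 ∨ qF S x y = -1 := by
  classical
  refine Finset.prod_induction (fun p => tm p x y) (fun a : ℤ => a = 1 ∨ a = -1) ?_ (Or.inl rfl) ?_
  · rintro a b (rfl | rfl) (rfl | rfl) <;> simp
  · intro p hp
    exact (ht p (hS p hp) x y 1 hx hy one_ne_zero).1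

private theorem qF_sq (x y : ℚ) (hx : x ≠ 0) (hy : y ≠ 0) : qF S x (y * y) = 1 := by
  rw [qF_mul ht S hS _ _ _ hx hy hy]
  rcases qF_pm ht S hS x y hx hy with h | h <;> rw [h] <;> norm_num

private theorem qF_one (x : ℚ) (hx : x ≠ 0) : qF S x 1 = 1 := by
  simpa using qF_sq ht S hS x 1 hx one_ne_zero

private theorem qF_inv (x y : ℚ) (hx : x ≠ 0) (hy : y ≠ 0) : qF S x y⁻¹ = qF S x y := by
  have h : y⁻¹ = y * (y⁻¹ * y⁻¹) := by field_simp
  rw [h, qF_mul ht S hS _ _ _ hx hy (mul_ne_zero (inv_ne_zero hy) (inv_ne_zero hy)),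
    qF_sq ht S hS _ _ hx (inv_ne_zero hy), mul_one]

private theorem qF_unit (x y : ℚ) (hx : x ≠ 0) (hy : y ≠ 0)
    (h : ∀ p ∈ S, padicValRat p x = 0 ∧ padicValRat p y = 0) : qF S x y = 1 :=
  Finset.prod_eq_one fun p hp => (ht p (hS p hp) x y 1 hx hy one_ne_zero).2.2.2.2 (h p hp).1
    (h p hp).2

/-- The symbol of `x` and a prime `r` of `S`, where `x` is a unit at the other primes of `S`. -/
private theorem qF_prime (x : ℚ) (hx : x ≠ 0) (r : ℕ) (hr : r ∈ S)
    (h : ∀ p ∈ S, p ≠ r → padicValRat p x = 0) : qF S x (r : ℚ) = tm r x r := by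
  classical
  have hrp := (hS r hr).1
  rw [qF, Finset.prod_eq_single r]
  · intro p hp hpr
    have hpp := (hS p hp).1
    refine (ht p (hS p hp) x r 1 hx (by exact_mod_cast hrp.ne_zero) one_ne_zero).2.2.2.2
      (h p hp hpr) ?_
    rw [padicValRat.of_nat]
    exact_mod_cast padicValNat.eq_zero_of_not_dvd fun hd =>
      hpr ((Nat.prime_dvd_prime_iff_eq hpp hrp).1 hd)
  · intro h
    exact absurd hr h

end F

private theorem ch_eq_leg (p : ℕ) [Fact p.Prime] (a : ℤ) (ha : (a : ZMod p) ≠ 0) :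
    ch (a : ZMod p) = legendreSym p a := by
  rw [ch]
  split_ifs with h
  · exact ((legendreSym.eq_one_iff p ha).2 h).symm
  · rcases legendreSym.eq_one_or_neg_one p ha with h1 | h1
    · exact absurd ((legendreSym.eq_one_iff p ha).1 h1) h
    · exact h1.symm

/-- The symbol of `p` and an integer prime to `p`. -/
private theorem tm_self (hz : ZPBStmt) (p : ℕ) (hp : p.Prime) (y : ℤ) (hy : ¬ (p : ℤ) ∣ y) :
    tm p (p : ℚ) (y : ℚ) = ch (y : ZMod p) := by
  have hp0 : (p : ℚ) ≠ 0 := by exact_mod_cast hp.ne_zero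
  have := Fact.mk hp
  have h1 : padicValRat p (p : ℚ) = 1 := by
    rw [padicValRat.of_nat, padicValNat_self]
    norm_num
  have h2 : padicValRat p (y : ℚ) = 0 := by
    rw [padicValRat.of_int, padicValInt.eq_zero_of_not_dvd hy]
    norm_num
  have h3 := ((hz p hp).2.2.2.1 y).2
  rw [tm, h1, h2]
  simp only [up, h1, h2]
  simp [h3]

private theorem nval (p x : ℕ) (h : ¬ p ∣ x) : padicValRat p (x : ℚ) = 0 := by
  rw [padicValRat.of_nat]
  exact_mod_cast padicValNat.eq_zero_of_not_dvd h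

private theorem opr_two {p : ℕ} (h : OPr p) : ¬ p ∣ 2 := fun hd =>
  h.2 ((Nat.prime_dvd_prime_iff_eq h.1 Nat.prime_two).1 hd)

private theorem c4 (a b : ℕ) : ZMod.χ₄ ((a * b : ℕ) : ZMod 4) = ZMod.χ₄ a * ZMod.χ₄ b := by
  rw [Nat.cast_mul, map_mul]

private theorem c8 (a b : ℕ) : ZMod.χ₈ ((a * b : ℕ) : ZMod 8) = ZMod.χ₈ a * ZMod.χ₈ b := by
  rw [Nat.cast_mul, map_mul]

private theorem c41 : ZMod.χ₄ ((1 : ℕ) : ZMod 4) = 1 := by
  rw [Nat.cast_one, map_one]

private theorem c81 : ZMod.χ₈ ((1 : ℕ) : ZMod 8) = 1 := by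
  rw [Nat.cast_one, map_one]

section Q

variable (hz : ZPBStmt) (ht : TMMStmt) (S : Finset ℕ) (hS : ∀ p ∈ S, OPr p)

include hz ht hS

/-- The symbols of `-1`. -/
private theorem qF_m1 (r : ℕ) (hr : r ∈ S) : qF S (-1) r = ZMod.χ₄ r := by
  have hrp := (hS r hr).1
  have := Fact.mk hrp
  have hr0 : (r : ℚ) ≠ 0 := by exact_mod_cast hrp.ne_zero
  rw [qF_prime ht S hS (-1) (by norm_num) r hr]
  · rw [(ht r (hS r hr) (-1) r 1 (by norm_num) hr0 one_ne_zero).2.1]
    have hnd : ¬ (r : ℤ) ∣ -1 := by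
      rw [Int.dvd_neg]
      intro h
      have : r ∣ 1 := by exact_mod_cast h
      exact hrp.one_lt.ne' (Nat.dvd_one.1 this)
    have h := tm_self hz r hrp (-1) hnd
    push_cast at h
    rw [h, ← legendreSym.at_neg_one (hS r hr).2]
    have := ch_eq_leg r (-1) (by
      push_cast
      exact neg_ne_zero.2 one_ne_zero)
    push_cast at this
    exact this
  · intro p _ _
    simp

/-- The symbols of `2`. -/
private theorem qF_2 (r : ℕ) (hr : r ∈ S) : qF S 2 r = ZMod.χ₈ r := by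
  have hrp := (hS r hr).1
  have := Fact.mk hrp
  have hr0 : (r : ℚ) ≠ 0 := by exact_mod_cast hrp.ne_zero
  rw [qF_prime ht S hS 2 (by norm_num) r hr]
  · rw [(ht r (hS r hr) 2 r 1 (by norm_num) hr0 one_ne_zero).2.1]
    have hnd : ¬ (r : ℤ) ∣ 2 := by
      intro h
      exact opr_two (hS r hr) (by exact_mod_cast h)
    have h := tm_self hz r hrp 2 hnd
    push_cast at h
    rw [h, ← legendreSym.at_two (hS r hr).2]
    have := ch_eq_leg r 2 (by
      push_cast
      intro h2
      have : ((2 : ℕ) : ZMod r) = 0 := by exact_mod_cast h2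
      exact opr_two (hS r hr) ((ZMod.natCast_eq_zero_iff 2 r).1 this))
    push_cast at this
    exact this
  · intro p hp _
    have := nval p 2 (opr_two (hS p hp))
    exact_mod_cast this

/-- The symbols of a prime. -/
private theorem qF_q (q r : ℕ) (hq : q ∈ S) (hr : r ∈ S) :
    qF S q r = ZMod.χ₄ r ^ (q / 2) := by
  classical
  have hrp := (hS r hr).1
  have hqp := (hS q hq).1
  have hr0 : (r : ℚ) ≠ 0 := by exact_mod_cast hrp.ne_zero
  have hq0 : (q : ℚ) ≠ 0 := by exact_mod_cast hqp.ne_zero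
  have := Fact.mk hrp
  have := Fact.mk hqp
  rcases eq_or_ne q r with rfl | hqr
  · -- equal primes
    have h1 : qF S q q = qF S q (-q) * qF S q (-1) := by
      rw [← qF_mul ht S hS _ _ _ hq0 (neg_ne_zero.2 hq0) (by norm_num)]
      congr 1
      ring
    rw [h1, qF_neg ht S hS _ hq0, one_mul, qF_symm ht S hS _ _ hq0 (by norm_num),
      qF_m1 hz ht S hS q hq]
    have hodd : q % 2 = 1 := hqp.eq_two_or_odd.resolve_left (hS q hq).2
    rw [ZMod.χ₄_nat_eq_if_mod_four]
    have : q % 4 = 1 ∨ q % 4 = 3 := by omega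
    rcases this with h4 | h4
    · rw [if_neg (by omega), if_pos h4, one_pow]
    · rw [if_neg (by omega), if_neg (by omega)]
      rw [Odd.neg_one_pow]
      rw [Nat.odd_iff]
      omega
  · -- different primes
    have hndq : ¬ q ∣ r := fun h => hqr ((Nat.prime_dvd_prime_iff_eq hqp hrp).1 h)
    have hndr : ¬ r ∣ q := fun h => hqr ((Nat.prime_dvd_prime_iff_eq hrp hqp).1 h).symm
    have hsp : qF S q r = tm q q r * tm r q r := by
      rw [qF, ← Finset.prod_subset (s₁ := {q, r})]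
      · rw [Finset.prod_pair hqr]
      · intro p hp
        rcases Finset.mem_insert.1 hp with rfl | hp
        · exact hq
        · rw [Finset.mem_singleton.1 hp]
          exact hr
      · intro p hp hp'
        rw [Finset.mem_insert, Finset.mem_singleton, not_or] at hp'
        refine (ht p (hS p hp) q r 1 hq0 hr0 one_ne_zero).2.2.2.2 (nval _ _ fun h => ?_)
          (nval _ _ fun h => ?_)
        · exact hp'.1 ((Nat.prime_dvd_prime_iff_eq (hS p hp).1 hqp).1 h)
        · exact hp'.2 ((Nat.prime_dvd_prime_iff_eq (hS p hp).1 hrp).1 h)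
    rw [hsp, (ht r (hS r hr) q r 1 hq0 hr0 one_ne_zero).2.1]
    have h1 := tm_self hz q hqp r (by exact_mod_cast hndq)
    have h2 := tm_self hz r hrp q (by exact_mod_cast hndr)
    push_cast at h1 h2
    have hq' : ((q : ℤ) : ZMod r) ≠ 0 := by
      push_cast
      intro h
      exact hndr ((ZMod.natCast_eq_zero_iff q r).1 h)
    have hr' : ((r : ℤ) : ZMod q) ≠ 0 := by
      push_cast
      intro h
      exact hndq ((ZMod.natCast_eq_zero_iff r q).1 h)
    have h3 := ch_eq_leg r q hq'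
    have h4 := ch_eq_leg q r hr'
    push_cast at h3 h4
    rw [h1, h2, h3, h4, legendreSym.quadratic_reciprocity' (hS r hr).2 (hS q hq).2]
    have h5 : legendreSym r q * legendreSym r q = 1 := by
      rcases legendreSym.eq_one_or_neg_one r hq' with h | h <;> rw [h] <;> norm_num
    rw [mul_assoc, h5, mul_one]
    have hodd : r % 2 = 1 := hrp.eq_two_or_odd.resolve_left (hS r hr).2
    rw [pow_mul]
    congr 1
    rw [ZMod.χ₄_nat_eq_if_mod_four]
    have : r % 4 = 1 ∨ r % 4 = 3 := by omega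
    rcases this with h4 | h4
    · rw [if_neg (by omega), if_pos h4]
      rw [Even.neg_one_pow]
      rw [Nat.even_iff]
      omega
    · rw [if_neg (by omega), if_neg (by omega)]
      rw [Odd.neg_one_pow]
      rw [Nat.odd_iff]
      omega

omit hz in
/-- From the primes to the odd numbers. -/
private theorem qF_ext (x : ℚ) (hx : x ≠ 0) (f : ℕ → ℤ) (f1 : f 1 = 1)
    (fm : ∀ a b, f (a * b) = f a * f b) (h : ∀ r ∈ S, qF S x r = f r) :
    ∀ n : ℕ, Odd n → (∀ p : ℕ, p.Prime → p ∣ n → p ∈ S) → qF S x n = f n := by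
  intro n
  induction n using Nat.recOnMul with
  | zero =>
    intro h0
    exact absurd h0 (by decide)
  | one =>
    intro _ _
    push_cast
    rw [qF_one ht S hS x hx, f1]
  | prime p hp =>
    intro _ h1
    exact h p (h1 p hp dvd_rfl)
  | mul a b iha ihb =>
    intro hab hd
    rw [Nat.odd_mul] at hab
    have ha0 : (a : ℚ) ≠ 0 := by
      have : a ≠ 0 := by
        rintro rfl
        exact absurd hab.1 (by decide)
      exact_mod_cast this
    have hb0 : (b : ℚ) ≠ 0 := by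
      have : b ≠ 0 := by
        rintro rfl
        exact absurd hab.2 (by decide)
      exact_mod_cast this
    push_cast
    rw [qF_mul ht S hS _ _ _ hx ha0 hb0, fm,
      iha hab.1 fun p hp h' => hd p hp (h'.trans (dvd_mul_right _ _)),
      ihb hab.2 fun p hp h' => hd p hp (h'.trans (dvd_mul_left _ _))]

/-- Natural numbers `c` congruent to `1` modulo `8`. -/
private theorem qF_nat (c : ℕ) (hc : c % 8 = 1) (hcS : ∀ p : ℕ, p.Prime → p ∣ c → p ∈ S) :
    qF S (-1) c = 1 ∧ ∀ n : ℕ, n ≠ 0 → (∀ p : ℕ, OPr p → p ∣ n → p ∈ S) → qF S n c = 1 := by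
  have hodd : Odd c := by
    rw [Nat.odd_iff]
    omega
  have hc0 : (c : ℚ) ≠ 0 := by
    have : c ≠ 0 := by omega
    exact_mod_cast this
  have h4 : ZMod.χ₄ c = 1 := by
    rw [ZMod.χ₄_nat_eq_if_mod_four, if_neg (by omega), if_pos (by omega)]
  have h8 : ZMod.χ₈ c = 1 := by
    rw [ZMod.χ₈_nat_eq_if_mod_eight, if_neg (by omega), if_pos (by omega)]
  refine ⟨?_, ?_⟩
  · rw [qF_ext ht S hS (-1) (by norm_num) (fun n => ZMod.χ₄ n) c41 c4
      (fun r hr => qF_m1 hz ht S hS r hr) c hodd hcS]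
    exact h4
  · intro n
    induction n using Nat.recOnMul with
    | zero =>
      intro h0
      exact absurd rfl h0
    | one =>
      intro _ _
      push_cast
      rw [qF_symm ht S hS _ _ one_ne_zero hc0, qF_one ht S hS c hc0]
    | prime q hq =>
      intro _ h1
      rcases eq_or_ne q 2 with rfl | hq2
      · have := qF_ext ht S hS 2 (by norm_num) (fun n => ZMod.χ₈ n) c81 c8
          (fun r hr => qF_2 hz ht S hS r hr) c hodd hcS
        push_cast
        rw [this]
        exact h8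
      · have hqS : q ∈ S := h1 q ⟨hq, hq2⟩ dvd_rfl
        rw [qF_ext ht S hS q (by exact_mod_cast hq.ne_zero) (fun n => ZMod.χ₄ n ^ (q / 2))
          (by show ZMod.χ₄ ((1 : ℕ) : ZMod 4) ^ (q / 2) = 1; rw [c41, one_pow])
          (fun a b => by
            show ZMod.χ₄ ((a * b : ℕ) : ZMod 4) ^ (q / 2) = _
            rw [c4, mul_pow])
          (fun r hr => qF_q hz ht S hS q r hqS hr) c hodd hcS]
        simp only [h4, one_pow]
    | mul a b iha ihb =>
      intro hab hd
      have ha : a ≠ 0 := left_ne_zero_of_mul hab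
      have hb : b ≠ 0 := right_ne_zero_of_mul hab
      push_cast
      rw [qF_mul' ht S hS _ _ _ (by exact_mod_cast ha) (by exact_mod_cast hb) hc0,
        iha ha fun p hp h' => hd p hp (h'.trans (dvd_mul_right _ _)),
        ihb hb fun p hp h' => hd p hp (h'.trans (dvd_mul_left _ _)), mul_one]

end Q

private theorem mem_num (p : ℕ) (hp : p.Prime) (x : ℚ) (hx : x ≠ 0) (h : padicValRat p x = 0) :
    ¬ p ∣ x.num.natAbs ∧ ¬ p ∣ x.den := by
  have := Fact.mk hp
  have hcop := x.reduced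
  rw [padicValRat] at h
  have key : ¬ p ∣ x.num.natAbs ∨ ¬ p ∣ x.den := by
    by_contra hcon
    rw [not_or, not_not, not_not] at hcon
    exact hp.one_lt.ne' (Nat.dvd_one.1 (hcop ▸ Nat.dvd_gcd hcon.1 hcon.2))
  have hn0 : x.num.natAbs ≠ 0 := Int.natAbs_ne_zero.2 (Rat.num_ne_zero.2 hx)
  have e1 : padicValInt p x.num = padicValNat p x.num.natAbs := rfl
  rcases key with h1 | h1
  · refine ⟨h1, fun h2 => ?_⟩
    rw [e1, padicValNat.eq_zero_of_not_dvd h1] at h
    have := (one_le_padicValNat_of_dvd x.den_nz h2)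
    omega
  · refine ⟨fun h2 => ?_, h1⟩
    rw [e1, padicValNat.eq_zero_of_not_dvd h1] at h
    have := (one_le_padicValNat_of_dvd hn0 h2)
    omega

/-- Rational numbers congruent to `1` modulo `8`. -/
private theorem num_den8 (c : ℚ) (hc : 0 < c) (h8 : (c - 1) / 8 ∈ Zp 2) :
    (c.num.natAbs * c.den) % 8 = 1 := by
  set t := (c - 1) / 8 with htdef
  have ht : ¬ 2 ∣ t.den := h8
  have hct : c = 1 + 8 * t := by
    rw [htdef]
    ring
  have hnum : (c.num : ℚ) * t.den = c.den * (t.den + 8 * t.num) := by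
    have h1 : (c.num : ℚ) = c * c.den := (Rat.mul_den_eq_num c).symm
    have h2 : (t.num : ℚ) = t * t.den := (Rat.mul_den_eq_num t).symm
    rw [h1, h2, hct]
    push_cast
    ring
  have hnumz : c.num * (t.den : ℤ) = c.den * (t.den + 8 * t.num) := by exact_mod_cast hnum
  have hcp : 0 < c.num := Rat.num_pos.2 hc
  have hna : ((c.num.natAbs : ℕ) : ℤ) = c.num := by omega
  have hden : ¬ 2 ∣ c.den := by
    intro hd
    have h1 : (c.den : ℤ) ∣ c.num * (t.den : ℤ) := ⟨_, hnumz⟩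
    have h2 : (c.den : ℤ) ∣ (t.den : ℤ) := by
      refine IsCoprime.dvd_of_dvd_mul_left ?_ h1
      rw [Int.isCoprime_iff_gcd_eq_one, Int.gcd_comm]
      simpa [Int.gcd] using c.reduced
    exact ht (hd.trans (by exact_mod_cast h2))
  have e1 : ((c.num * (t.den : ℤ) : ℤ) : ZMod 8) = ((c.den * (t.den + 8 * t.num) : ℤ) : ZMod 8) := by
    rw [hnumz]
  push_cast at e1
  have h80 : (8 : ZMod 8) = 0 := by decide
  rw [h80, zero_mul, add_zero] at e1
  have hu : IsUnit ((t.den : ℕ) : ZMod 8) := by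
    rw [ZMod.isUnit_iff_coprime]
    exact Nat.Coprime.pow_right 3 ((Nat.coprime_comm.1 ((Nat.Prime.coprime_iff_not_dvd
      Nat.prime_two).2 ht)))
  have e2 : ((c.num : ℤ) : ZMod 8) = ((c.den : ℕ) : ZMod 8) := hu.mul_right_cancel e1
  have e3 : ((c.num.natAbs : ℕ) : ZMod 8) = ((c.den : ℕ) : ZMod 8) := by
    rw [← e2, ← Int.cast_natCast (R := ZMod 8) c.num.natAbs, hna]
  have e4 : (((c.num.natAbs * c.den : ℕ)) : ZMod 8) = 1 := by
    push_cast
    have e3' : ((c.num.natAbs : ℕ) : ZMod 8) * ((c.den : ℕ) : ZMod 8) =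
        ((c.den : ℕ) : ZMod 8) * ((c.den : ℕ) : ZMod 8) := by rw [e3]
    have e5 : ((c.den : ℕ) : ZMod 8) * ((c.den : ℕ) : ZMod 8) = 1 := by
      have h := Nat.div_add_mod c.den 8
      have hm : c.den % 8 = 1 ∨ c.den % 8 = 3 ∨ c.den % 8 = 5 ∨ c.den % 8 = 7 := by omega
      have hcast : ((c.den : ℕ) : ZMod 8) = ((c.den % 8 : ℕ) : ZMod 8) := by simp
      rw [hcast]
      rcases hm with h | h | h | h <;> rw [h] <;> decide
    rw [← e5, ← e3']
  have e6 := (ZMod.natCast_eq_natCast_iff' (c.num.natAbs * c.den) 1 8).1 (by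
    rw [e4]
    simp)
  exact e6

/-- QRC: the law of quadratic reciprocity. -/
theorem qrc (hz : ZPBStmt) (ht : TMMStmt) : QRCStmt := by
  intro x c S hx hc h8 hS hval
  have hnx : ∀ p, OPr p → p ∣ x.num.natAbs → p ∈ S := by
    intro p hp h
    by_contra hpS
    exact (mem_num p hp.1 x hx (hval p hp hpS).1).1 h
  have hdx : ∀ p, OPr p → p ∣ x.den → p ∈ S := by
    intro p hp h
    by_contra hpS
    exact (mem_num p hp.1 x hx (hval p hp hpS).1).2 h
  have hm := num_den8 c hc h8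
  have hcS : ∀ p : ℕ, p.Prime → p ∣ c.num.natAbs * c.den → p ∈ S := by
    intro p hp h
    have hp2 : p ≠ 2 := by
      rintro rfl
      omega
    by_contra hpS
    have := mem_num p hp c hc.ne' (hval p ⟨hp, hp2⟩ hpS).2
    rcases (Nat.Prime.dvd_mul hp).1 h with h | h
    · exact this.1 h
    · exact this.2 h
  obtain ⟨hm1, hnat⟩ := qF_nat hz ht S hS _ hm hcS
  have hcn : (c.num.natAbs : ℚ) ≠ 0 := by
    have : c.num.natAbs ≠ 0 := Int.natAbs_ne_zero.2 (Rat.num_ne_zero.2 hc.ne')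
    exact_mod_cast this
  have hcd : (c.den : ℚ) ≠ 0 := by exact_mod_cast c.den_nz
  have hxn : (x.num.natAbs : ℚ) ≠ 0 := by
    have : x.num.natAbs ≠ 0 := Int.natAbs_ne_zero.2 (Rat.num_ne_zero.2 hx)
    exact_mod_cast this
  have hxd : (x.den : ℚ) ≠ 0 := by exact_mod_cast x.den_nz
  -- the second argument
  have hc1 : c = (c.num.natAbs : ℚ) * (c.den : ℚ)⁻¹ := by
    have hcp : 0 < c.num := Rat.num_pos.2 hc
    have hna : ((c.num.natAbs : ℕ) : ℤ) = c.num := by omega
    have h1 : (c.num.natAbs : ℚ) = (c.num : ℚ) := by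
      rw [← Int.cast_natCast (R := ℚ) c.num.natAbs, hna]
    rw [h1, ← div_eq_mul_inv, Rat.num_div_den]
  have h1 : ∀ y : ℚ, y ≠ 0 → qF S y c = qF S y ((c.num.natAbs * c.den : ℕ) : ℚ) := by
    intro y hy
    conv_lhs => rw [hc1]
    rw [qF_mul ht S hS _ _ _ hy hcn (inv_ne_zero hcd), qF_inv ht S hS _ _ hy hcd]
    push_cast
    rw [qF_mul ht S hS _ _ _ hy hcn hcd]
  have h2 : qF S ((x.num.natAbs : ℕ) : ℚ) c = 1 := by
    rw [h1 _ hxn]
    exact hnat _ (by exact_mod_cast hxn) hnx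
  have h3 : qF S ((x.den : ℕ) : ℚ) c = 1 := by
    rw [h1 _ hxd]
    exact hnat _ (by exact_mod_cast hxd) hdx
  have h4 : qF S (-1) c = 1 := by
    rw [h1 _ (by norm_num)]
    exact hm1
  have h5 : qF S (x.den : ℚ)⁻¹ c = 1 := by
    rw [qF_symm ht S hS _ _ (inv_ne_zero hxd) hc.ne', qF_inv ht S hS _ _ hc.ne' hxd,
      qF_symm ht S hS _ _ hc.ne' hxd, h3]
  have h6 : qF S (x.num : ℚ) c = 1 := by
    rcases Int.natAbs_eq x.num with h | h
    · rw [h]
      push_cast
      simpa using h2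
    · rw [h]
      push_cast
      have : (-(|(x.num : ℚ)|)) = (-1) * ((x.num.natAbs : ℕ) : ℚ) := by
        rw [Nat.cast_natAbs]
        push_cast
        ring
      rw [this, qF_mul' ht S hS _ _ _ (by norm_num) hxn hc.ne', h4, h2, mul_one]
  have hx1 : x = (x.num : ℚ) * (x.den : ℚ)⁻¹ := by
    rw [← div_eq_mul_inv, Rat.num_div_den]
  have hfin : qF S x c = 1 := by
    conv_lhs => rw [hx1]
    rw [qF_mul' ht S hS _ _ _ (by exact_mod_cast (Rat.num_ne_zero.2 hx)) (inv_ne_zero hxd) hc.ne',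
      h6, h5, mul_one]
  exact hfin

end Pool.NF
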